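import Mathlib

/-!
# Dimension of sign sets for the series with terms `(n^(-α₁), n^(-α₂))`

If every point of the plane is the sum of a convergent signed series `∑ ± (n^(-α₁), n^(-α₂))`, then
for every `L` the set of sign sequences with sum `L` has Hausdorff dimension `1`.

Idea: use the indices divisible by `N = 2B + 1` to correct the sum (they form a linear image of the
original sequence), and put balanced blocks of `2B` signs in between, arbitrarily chosen.
-/

open Filter Topology Set
open scoped NNReal ENNReal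

namespace Pool.Agent.Results.MP_035d7c_an.SignSets

/-- The space `Ω` of sign sequences `(ε_n)_{n ≥ 1}`; `ε.sign k` is the sign `ε_{k+1}`, where `true`
stands for `+1` and `false` for `-1`. -/
@[ext] structure Omega where
  /-- the signs -/
  sign : ℕ → Bool

/-- The sign as a real number. -/
def sgn (b : Bool) : ℝ := if b then 1 else -1

/-- The first index at which two sequences differ. -/
noncomputable def first (x y : Omega) : ℕ := PiNat.firstDiff (E := fun _ => Bool) x.sign y.sign

lemma apply_first_ne {x y : Omega} (h : x ≠ y) : x.sign (first x y) ≠ y.sign (first x y) :=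
  PiNat.apply_firstDiff_ne (E := fun _ => Bool) (fun h2 => h (Omega.ext h2))

lemma apply_eq_of_lt_first {x y : Omega} {n : ℕ} (h : n < first x y) : x.sign n = y.sign n :=
  PiNat.apply_eq_of_lt_firstDiff (E := fun _ => Bool) h

/-- The distance `ρ(ε, η) = 2^(-min {n ≥ 1 : ε_n ≠ η_n})` for `ε ≠ η` (and `0` for `ε = η`). -/
noncomputable instance : MetricSpace Omega where
  dist x y := (1 / 2) * (PiNat.dist (E := fun _ => Bool)).dist x.sign y.sign
  dist_self x := by
    change (1 / 2) * (PiNat.dist (E := fun _ => Bool)).dist x.sign x.sign = 0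
    rw [PiNat.dist_self (E := fun _ => Bool) x.sign, mul_zero]
  dist_comm x y := by
    change (1 / 2) * (PiNat.dist (E := fun _ => Bool)).dist x.sign y.sign =
      (1 / 2) * (PiNat.dist (E := fun _ => Bool)).dist y.sign x.sign
    rw [PiNat.dist_comm (E := fun _ => Bool) x.sign y.sign]
  dist_triangle x y z := by
    change (1 / 2) * (PiNat.dist (E := fun _ => Bool)).dist x.sign z.sign ≤
      (1 / 2) * (PiNat.dist (E := fun _ => Bool)).dist x.sign y.sign +
      (1 / 2) * (PiNat.dist (E := fun _ => Bool)).dist y.sign z.sign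
    have := PiNat.dist_triangle (E := fun _ => Bool) x.sign y.sign z.sign
    linarith
  eq_of_dist_eq_zero {x y} h := by
    apply Omega.ext
    apply PiNat.eq_of_dist_eq_zero (E := fun _ => Bool)
    change (1 / 2) * (PiNat.dist (E := fun _ => Bool)).dist x.sign y.sign = 0 at h
    linarith

lemma dist_eq {x y : Omega} (h : x ≠ y) : dist x y = (1 / 2) ^ (first x y + 1) := by
  have h1 := PiNat.dist_eq_of_ne (E := fun _ => Bool) (x := x.sign) (y := y.sign)
    (fun h2 => h (Omega.ext h2))
  change (1 / 2) * (PiNat.dist (E := fun _ => Bool)).dist x.sign y.sign = _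
  rw [h1, pow_succ']
  rfl

/-- The distance is `2^(-(n+1))` if the signs number `1, …, n` agree and those number `n + 1`
differ. -/
lemma dist_eq_of_first {x y : Omega} {n : ℕ} (h1 : ∀ k < n, x.sign k = y.sign k)
    (h2 : x.sign n ≠ y.sign n) : dist x y = (1 / 2) ^ (n + 1) := by
  have hne : x ≠ y := fun h => h2 (by rw [h])
  rw [dist_eq hne]
  congr 2
  apply le_antisymm
  · by_contra hcon
    push Not at hcon
    exact h2 (apply_eq_of_lt_first hcon)
  · by_contra hcon
    push Not at hcon
    exact apply_first_ne hne (h1 _ hcon)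

/-- The vectors `a_n = (n^(-α₁), n^(-α₂))`, with `a_{k+1}` written `a α₁ α₂ k`. -/
noncomputable def a (α₁ α₂ : ℝ) (k : ℕ) : ℝ × ℝ :=
  (((k : ℝ) + 1) ^ (-α₁), ((k : ℝ) + 1) ^ (-α₂))

/-- `E(L)`: the sign sequences `ε` for which the series `∑ ε_n a_n` converges to `L`. -/
def signSet (u : ℕ → ℝ × ℝ) (L : ℝ × ℝ) : Set Omega :=
  {ε | Tendsto (fun n => ∑ k ∈ Finset.range n, sgn (ε.sign k) • u k) atTop (𝓝 L)}

/-- `S(a_n)`: all sums of convergent series `∑ ε_n a_n`. -/
def signSums (u : ℕ → ℝ × ℝ) : Set (ℝ × ℝ) := {L | (signSet u L).Nonempty}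

/-! ### The dimension of the whole space -/

lemma diam_bound (n : ℕ) (p : Fin n → Bool) :
    Metric.ediam {x : Omega | ∀ i : Fin n, x.sign i = p i} ≤ ENNReal.ofReal ((1 / 2) ^ n) := by
  apply Metric.ediam_le
  intro x hx y hy
  rw [edist_dist]
  apply ENNReal.ofReal_le_ofReal
  rcases eq_or_ne x y with h | h
  · rw [h, dist_self]
    positivity
  · rw [dist_eq h]
    apply pow_le_pow_of_le_one (by norm_num) (by norm_num)
    by_contra hcon
    push Not at hcon
    have hlt : first x y < n := by omega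
    exact apply_first_ne h ((hx ⟨_, hlt⟩).trans (hy ⟨_, hlt⟩).symm)

lemma dimH_univ_le : dimH (univ : Set Omega) ≤ 1 := by
  borelize Omega
  have h : MeasureTheory.Measure.hausdorffMeasure (1 : ℝ) (univ : Set Omega) ≤
      liminf (fun n : ℕ => ∑ p : Fin n → Bool,
        Metric.ediam {x : Omega | ∀ i : Fin n, x.sign i = p i} ^ (1 : ℝ)) atTop := by
    apply MeasureTheory.Measure.hausdorffMeasure_le_liminf_sum 1 univ
      (fun n : ℕ => ENNReal.ofReal ((1 / 2) ^ n))
    · have : Tendsto (fun n : ℕ => ((1 : ℝ) / 2) ^ n) atTop (𝓝 0) :=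
        tendsto_pow_atTop_nhds_zero_of_lt_one (by norm_num) (by norm_num)
      have h2 := ENNReal.tendsto_ofReal this
      rwa [ENNReal.ofReal_zero] at h2
    · exact Eventually.of_forall fun n p => diam_bound n p
    · refine Eventually.of_forall fun n x _ => ?_
      exact mem_iUnion.mpr ⟨fun i => x.sign i, fun i => rfl⟩
  have hle : ∀ n : ℕ, ∑ p : Fin n → Bool,
      Metric.ediam {x : Omega | ∀ i : Fin n, x.sign i = p i} ^ (1 : ℝ) ≤ 1 := by
    intro n
    calc ∑ p : Fin n → Bool, Metric.ediam {x : Omega | ∀ i : Fin n, x.sign i = p i} ^ (1 : ℝ)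
        ≤ ∑ _p : Fin n → Bool, ENNReal.ofReal ((1 / 2) ^ n) := by
          apply Finset.sum_le_sum
          intro p _
          rw [ENNReal.rpow_one]
          exact diam_bound n p
      _ = 1 := by
          rw [Finset.sum_const, Finset.card_univ, Fintype.card_fun, Fintype.card_bool,
            Fintype.card_fin, nsmul_eq_mul]
          rw [← ENNReal.ofReal_natCast, ← ENNReal.ofReal_mul (by positivity)]
          push_cast
          rw [← mul_pow]
          norm_num
  have h2 : liminf (fun n : ℕ => ∑ p : Fin n → Bool,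
        Metric.ediam {x : Omega | ∀ i : Fin n, x.sign i = p i} ^ (1 : ℝ)) atTop ≤ 1 := by
    have h4 := liminf_le_limsup (f := atTop) (u := fun n : ℕ => ∑ p : Fin n → Bool,
        Metric.ediam {x : Omega | ∀ i : Fin n, x.sign i = p i} ^ (1 : ℝ))
    exact h4.trans (limsup_le_of_le (h := Eventually.of_forall hle))
  have h3 := dimH_le_of_hausdorffMeasure_ne_top (d := 1) (s := (univ : Set Omega)) (by
    have := h.trans h2
    rw [NNReal.coe_one]
    exact ne_top_of_le_ne_top ENNReal.one_ne_top this)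
  simpa using h3

/-! ### Balanced blocks -/

/-- Balanced patterns of `2B` signs, given by the set of the `B` positions with sign `+1`. -/
abbrev Pat (B : ℕ) : Type := {S : Finset (Fin (2 * B)) // S.card = B}

lemma sum_sgn_balanced {B : ℕ} (S : Pat B) : ∑ i : Fin (2 * B), sgn (decide (i ∈ S.1)) = 0 := by
  have e : ∀ i : Fin (2 * B), sgn (decide (i ∈ S.1)) = 2 * (if i ∈ S.1 then 1 else 0) - 1 := by
    intro i
    unfold sgn
    by_cases h : i ∈ S.1
    · simp [h]
      norm_num
    · simp [h]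
  simp only [e]
  rw [Finset.sum_sub_distrib, ← Finset.mul_sum, Finset.sum_boole]
  simp [S.2]

/-- The sign sequence built from the blocks `c` and the corrections `δ`. -/
def build (B : ℕ) (c : ℕ → Pat B) (δ : Omega) : Omega where
  sign k := if h : k % (2 * B + 1) < 2 * B then
    decide ((⟨k % (2 * B + 1), h⟩ : Fin (2 * B)) ∈ (c (k / (2 * B + 1))).1)
    else δ.sign (k / (2 * B + 1))

lemma build_block (B : ℕ) (c : ℕ → Pat B) (δ : Omega) (q : ℕ) (i : Fin (2 * B)) :
    (build B c δ).sign ((2 * B + 1) * q + i) = decide (i ∈ (c q).1) := by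
  have hi := i.2
  have h1 : ((2 * B + 1) * q + (i : ℕ)) % (2 * B + 1) = i := by
    rw [Nat.mul_add_mod, Nat.mod_eq_of_lt (by omega)]
  have h2 : ((2 * B + 1) * q + (i : ℕ)) / (2 * B + 1) = q := by
    rw [Nat.mul_add_div (by omega), Nat.div_eq_of_lt (by omega), add_zero]
  unfold build
  simp only [h1, h2]
  rw [dif_pos hi]

lemma build_control (B : ℕ) (c : ℕ → Pat B) (δ : Omega) (q : ℕ) :
    (build B c δ).sign ((2 * B + 1) * q + 2 * B) = δ.sign q := by
  have h1 : ((2 * B + 1) * q + 2 * B) % (2 * B + 1) = 2 * B := by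
    rw [Nat.mul_add_mod, Nat.mod_eq_of_lt (by omega)]
  have h2 : ((2 * B + 1) * q + 2 * B) / (2 * B + 1) = q := by
    rw [Nat.mul_add_div (by omega), Nat.div_eq_of_lt (by omega), add_zero]
  unfold build
  simp only [h1, h2]
  rw [dif_neg (lt_irrefl _)]

/-! ### One-dimensional estimates -/

/-- `n^(-α)` with `n = k + 1`. -/
noncomputable def f (α : ℝ) (k : ℕ) : ℝ := ((k : ℝ) + 1) ^ (-α)

lemma f_pos (α : ℝ) (k : ℕ) : 0 < f α k := by unfold f; positivity

lemma f_anti {α : ℝ} (hα : 0 < α) {m n : ℕ} (h : m ≤ n) : f α n ≤ f α m := by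
  unfold f
  apply Real.rpow_le_rpow_of_nonpos (by positivity) _ (by linarith)
  have : (m : ℝ) ≤ n := by exact_mod_cast h
  linarith

lemma f_tendsto {α : ℝ} (hα : 0 < α) : Tendsto (f α) atTop (𝓝 0) := by
  unfold f
  have h1 : Tendsto (fun k : ℕ => (k : ℝ) + 1) atTop atTop :=
    tendsto_atTop_add_const_right _ _ tendsto_natCast_atTop_atTop
  exact (tendsto_rpow_neg_atTop hα).comp h1

/-- The sum over a block. -/
noncomputable def block (B : ℕ) (α : ℝ) (c : ℕ → Pat B) (q : ℕ) : ℝ :=
  ∑ i : Fin (2 * B), sgn (decide (i ∈ (c q).1)) * f α ((2 * B + 1) * q + i)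

lemma abs_sgn (b : Bool) : |sgn b| = 1 := by
  unfold sgn; split_ifs <;> simp

lemma abs_block_le (B : ℕ) {α : ℝ} (hα : 0 < α) (c : ℕ → Pat B) (q : ℕ) :
    |block B α c q| ≤ (2 * B : ℝ) * (f α ((2 * B + 1) * q) - f α ((2 * B + 1) * (q + 1))) := by
  have e : block B α c q = ∑ i : Fin (2 * B), sgn (decide (i ∈ (c q).1)) *
      (f α ((2 * B + 1) * q + i) - f α ((2 * B + 1) * q)) := by
    unfold block
    simp only [mul_sub]
    rw [Finset.sum_sub_distrib, ← Finset.sum_mul, sum_sgn_balanced, zero_mul, sub_zero]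
  rw [e]
  calc |∑ i : Fin (2 * B), sgn (decide (i ∈ (c q).1)) *
      (f α ((2 * B + 1) * q + i) - f α ((2 * B + 1) * q))|
      ≤ ∑ i : Fin (2 * B), |sgn (decide (i ∈ (c q).1)) *
        (f α ((2 * B + 1) * q + i) - f α ((2 * B + 1) * q))| := Finset.abs_sum_le_sum_abs _ _
    _ ≤ ∑ _i : Fin (2 * B), (f α ((2 * B + 1) * q) - f α ((2 * B + 1) * (q + 1))) := by
        apply Finset.sum_le_sum
        intro i _
        rw [abs_mul, abs_sgn, one_mul, abs_sub_comm]
        have h1 : f α ((2 * B + 1) * q + i) ≤ f α ((2 * B + 1) * q) := f_anti hα (by omega)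
        have h2 : f α ((2 * B + 1) * (q + 1)) ≤ f α ((2 * B + 1) * q + i) := by
          apply f_anti hα
          have := i.2
          rw [mul_add]
          omega
        rw [abs_of_nonneg (by linarith)]
        linarith
    _ = (2 * B : ℝ) * (f α ((2 * B + 1) * q) - f α ((2 * B + 1) * (q + 1))) := by
        rw [Finset.sum_const, Finset.card_univ, Fintype.card_fin, nsmul_eq_mul]
        push_cast
        ring

lemma summable_block (B : ℕ) {α : ℝ} (hα : 0 < α) (c : ℕ → Pat B) : Summable (block B α c) := by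
  apply Summable.of_norm
  have h : Summable fun q : ℕ =>
      (2 * B : ℝ) * (f α ((2 * B + 1) * q) - f α ((2 * B + 1) * (q + 1))) := by
    apply Summable.mul_left
    apply summable_of_sum_range_le (c := f α 0)
    · intro q
      have := f_anti hα (show (2 * B + 1) * q ≤ (2 * B + 1) * (q + 1) by gcongr; omega)
      linarith
    · intro n
      rw [Finset.sum_range_sub' (fun q => f α ((2 * B + 1) * q))]
      have := f_pos α ((2 * B + 1) * n)
      simp only [mul_zero]
      linarith
  exact Summable.of_nonneg_of_le (fun q => norm_nonneg _)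
    (fun q => by rw [Real.norm_eq_abs]; exact abs_block_le B hα c q) h

/-- The control terms are a multiple of the original ones. -/
lemma f_control (B : ℕ) (α : ℝ) (q : ℕ) :
    f α ((2 * B + 1) * q + 2 * B) = ((2 * B + 1 : ℕ) : ℝ) ^ (-α) * f α q := by
  unfold f
  rw [← Real.mul_rpow (by positivity) (by positivity)]
  congr 1
  push_cast
  ring

/-- Partial sums of the built sequence at multiples of `N`. -/
lemma partial_mul (B : ℕ) (α : ℝ) (c : ℕ → Pat B) (δ : Omega) (q : ℕ) :
    ∑ k ∈ Finset.range ((2 * B + 1) * q), sgn ((build B c δ).sign k) * f α k =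
      ∑ j ∈ Finset.range q, block B α c j +
        ((2 * B + 1 : ℕ) : ℝ) ^ (-α) * ∑ j ∈ Finset.range q, sgn (δ.sign j) * f α j := by
  induction q with
  | zero => simp
  | succ q ih =>
    rw [mul_add, mul_one, Finset.sum_range_add, ih, Finset.sum_range_succ (block B α c),
      Finset.sum_range_succ (fun j => sgn (δ.sign j) * f α j)]
    rw [Finset.sum_range_succ, build_control, f_control,
      Finset.sum_range (fun x => sgn ((build B c δ).sign ((2 * B + 1) * q + x)) *
        f α ((2 * B + 1) * q + x))]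
    have e : ∑ i : Fin (2 * B), sgn ((build B c δ).sign ((2 * B + 1) * q + i)) *
        f α ((2 * B + 1) * q + i) = block B α c q := by
      unfold block
      apply Finset.sum_congr rfl
      intro i _
      rw [build_block]
    rw [e]
    ring

/-- Convergence of the built series. -/
lemma build_tendsto (B : ℕ) {α : ℝ} (hα : 0 < α) (c : ℕ → Pat B) (δ : Omega) {v : ℝ}
    (hδ : Tendsto (fun n => ∑ j ∈ Finset.range n, sgn (δ.sign j) * f α j) atTop (𝓝 v)) :
    Tendsto (fun n => ∑ k ∈ Finset.range n, sgn ((build B c δ).sign k) * f α k) atTop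
      (𝓝 (∑' q, block B α c q + ((2 * B + 1 : ℕ) : ℝ) ^ (-α) * v)) := by
  set N : ℕ := 2 * B + 1 with hN
  have hN0 : 0 < N := by omega
  set S : ℕ → ℝ := fun n => ∑ k ∈ Finset.range n, sgn ((build B c δ).sign k) * f α k with hS
  have h1 : Tendsto (fun q => S (N * q)) atTop (𝓝 (∑' q, block B α c q + (N : ℝ) ^ (-α) * v)) := by
    have e : (fun q => S (N * q)) = fun q => ∑ j ∈ Finset.range q, block B α c j +
        (N : ℝ) ^ (-α) * ∑ j ∈ Finset.range q, sgn (δ.sign j) * f α j := by
      funext q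
      exact partial_mul B α c δ q
    rw [e]
    exact (summable_block B hα c).hasSum.tendsto_sum_nat.add (hδ.const_mul _)
  have hdiv : Tendsto (fun n : ℕ => n / N) atTop atTop := by
    apply tendsto_atTop_atTop.mpr
    intro b
    refine ⟨N * b, fun n hn => ?_⟩
    rw [Nat.le_div_iff_mul_le hN0, mul_comm]
    exact hn
  have h2 : Tendsto (fun n : ℕ => S (N * (n / N))) atTop
      (𝓝 (∑' q, block B α c q + (N : ℝ) ^ (-α) * v)) := h1.comp hdiv
  have h3 : Tendsto (fun n : ℕ => S n - S (N * (n / N))) atTop (𝓝 0) := by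
    have h4 : Tendsto (fun n : ℕ => (N : ℝ) * f α (N * (n / N))) atTop (𝓝 0) := by
      have h5 : Tendsto (fun n : ℕ => N * (n / N)) atTop atTop := by
        apply tendsto_atTop_mono (fun n => Nat.le_mul_of_pos_left _ hN0) hdiv
      have h6 := ((f_tendsto hα).comp h5).const_mul (N : ℝ)
      simpa using h6
    apply squeeze_zero_norm (fun n => ?_) h4
    have e : S n = S (N * (n / N)) + ∑ i ∈ Finset.range (n % N),
        sgn ((build B c δ).sign (N * (n / N) + i)) * f α (N * (n / N) + i) := by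
      have h7 := Finset.sum_range_add (fun k => sgn ((build B c δ).sign k) * f α k)
        (N * (n / N)) (n % N)
      rw [Nat.div_add_mod] at h7
      exact h7
    rw [e, add_sub_cancel_left, Real.norm_eq_abs]
    calc |∑ i ∈ Finset.range (n % N),
          sgn ((build B c δ).sign (N * (n / N) + i)) * f α (N * (n / N) + i)|
        ≤ ∑ i ∈ Finset.range (n % N),
          |sgn ((build B c δ).sign (N * (n / N) + i)) * f α (N * (n / N) + i)| :=
          Finset.abs_sum_le_sum_abs _ _
      _ ≤ ∑ _i ∈ Finset.range (n % N), f α (N * (n / N)) := by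
          apply Finset.sum_le_sum
          intro i _
          rw [abs_mul, abs_sgn, one_mul, abs_of_pos (f_pos _ _)]
          exact f_anti hα (by omega)
      _ = ((n % N : ℕ) : ℝ) * f α (N * (n / N)) := by
          rw [Finset.sum_const, Finset.card_range, nsmul_eq_mul]
      _ ≤ (N : ℝ) * f α (N * (n / N)) := by
          have : ((n % N : ℕ) : ℝ) ≤ N := by exact_mod_cast (Nat.mod_lt n hN0).le
          gcongr
          exact (f_pos _ _).le
  have h8 := h3.add h2
  simpa using h8


/-! ### The Hölder map -/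

/-- The number of balanced patterns. -/
lemma card_pat (B : ℕ) : Fintype.card (Pat B) = B.centralBinom := by
  rw [Fintype.card_finset_len, Fintype.card_fin, Nat.centralBinom_eq_two_mul_choose]

/-- The `+1` positions of the block number `q`. -/
def posSet (B : ℕ) (ε : Omega) (q : ℕ) : Finset (Fin (2 * B)) :=
  Finset.univ.filter fun i => ε.sign ((2 * B + 1) * q + i) = true

/-- The digits of the number attached to a sign sequence. -/
noncomputable def digit (B : ℕ) {C : ℕ} [NeZero C] (e : Pat B ≃ Fin C) (ε : Omega) (q : ℕ) :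
    Fin C :=
  if h : (posSet B ε q).card = B then e ⟨posSet B ε q, h⟩ else 0

lemma digit_build (B : ℕ) {C : ℕ} [NeZero C] (e : Pat B ≃ Fin C) (c : ℕ → Pat B) (δ : Omega)
    (q : ℕ) : digit B e (build B c δ) q = e (c q) := by
  have h : posSet B (build B c δ) q = (c q).1 := by
    ext i
    unfold posSet
    rw [Finset.mem_filter, build_block]
    simp
  unfold digit
  simp only [h]
  rw [dif_pos (c q).2]

lemma digit_congr (B : ℕ) {C : ℕ} [NeZero C] (e : Pat B ≃ Fin C) {ε η : Omega} {q : ℕ}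
    (h : ∀ i : Fin (2 * B), ε.sign ((2 * B + 1) * q + i) = η.sign ((2 * B + 1) * q + i)) :
    digit B e ε q = digit B e η q := by
  have h1 : posSet B ε q = posSet B η q := by
    unfold posSet
    ext i
    rw [Finset.mem_filter, Finset.mem_filter, h i]
  unfold digit
  simp only [h1]

lemma holder_bound (B : ℕ) {C : ℕ} [NeZero C] (e : Pat B ≃ Fin C) {s : ℝ} (hs : 0 ≤ s)
    (hC : (2 : ℝ) ^ (s * (2 * B + 1 : ℕ)) ≤ C) (x y : Omega) :
    |Real.ofDigits (digit B e x) - Real.ofDigits (digit B e y)| ≤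
      (2 : ℝ) ^ (s * (2 * B + 1 : ℕ)) * dist x y ^ s := by
  rcases eq_or_ne x y with h | h
  · rw [h, sub_self, abs_zero]
    positivity
  set N : ℕ := 2 * B + 1 with hN
  have hN0 : 0 < N := by omega
  set n := first x y with hn
  have hC0 : (0 : ℝ) < C := lt_of_lt_of_le (by positivity) hC
  have h1 : |Real.ofDigits (digit B e x) - Real.ofDigits (digit B e y)| ≤
      ((C : ℝ)⁻¹) ^ (n / N) := by
    have := Real.abs_ofDigits_sub_ofDigits_le (x := digit B e x) (y := digit B e y) (n := n / N)
      (by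
        intro q hq
        apply digit_congr
        intro i
        apply apply_eq_of_lt_first
        have hi := i.2
        have h2 : q + 1 ≤ n / N := hq
        have h3 : N * (q + 1) ≤ n := by
          calc N * (q + 1) ≤ N * (n / N) := Nat.mul_le_mul_left _ h2
            _ ≤ n := Nat.mul_div_le n N
        rw [mul_add, mul_one] at h3
        have h4 : (2 * B + 1) * q = N * q := rfl
        omega)
    simpa using this
  refine h1.trans ?_
  rw [dist_eq h, ← hn]
  have h4 : n + 1 ≤ N * (n / N) + N := by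
    have h5 := Nat.div_add_mod n N
    have h6 := Nat.mod_lt n hN0
    omega
  have h4r : ((n : ℝ) + 1) ≤ (N : ℝ) * ((n / N : ℕ) : ℝ) + N := by exact_mod_cast h4
  calc ((C : ℝ)⁻¹) ^ (n / N) ≤ (((2 : ℝ) ^ (s * (N : ℕ)))⁻¹) ^ (n / N) := by gcongr
    _ = (2 : ℝ) ^ (-(s * N * ((n / N : ℕ) : ℝ))) := by
        rw [← Real.rpow_neg (by norm_num), ← Real.rpow_natCast, ← Real.rpow_mul (by norm_num)]
        congr 1
        ring
    _ ≤ (2 : ℝ) ^ (s * (N : ℝ) + -(s * ((n : ℝ) + 1))) := by
        apply Real.rpow_le_rpow_of_exponent_le (by norm_num)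
        nlinarith
    _ = (2 : ℝ) ^ (s * (N : ℝ)) * ((1 / 2 : ℝ) ^ (n + 1)) ^ s := by
        rw [Real.rpow_add (by norm_num)]
        congr 1
        rw [← Real.rpow_natCast, ← Real.rpow_mul (by norm_num), one_div,
          Real.inv_rpow (by norm_num), ← Real.rpow_neg (by norm_num)]
        congr 1
        push_cast
        ring

/-- The dimension bound for one block length. -/
lemma dim_ge {α₁ α₂ : ℝ} (h1 : 0 < α₁) (h2 : 0 < α₂) (hS : signSums (a α₁ α₂) = univ)
    (L : ℝ × ℝ) (B : ℕ) {s : ℝ≥0} (hs : 0 < s)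
    (hB : (2 : ℝ) ^ ((s : ℝ) * (2 * B + 1 : ℕ)) ≤ B.centralBinom) (hB1 : 1 < B.centralBinom) :
    (s : ℝ≥0∞) ≤ dimH (signSet (a α₁ α₂) L) := by
  classical
  set C : ℕ := B.centralBinom with hC
  have : NeZero C := ⟨by omega⟩
  have e : Pat B ≃ Fin C := Fintype.equivFinOfCardEq (card_pat B)
  have hN1 : ((2 * B + 1 : ℕ) : ℝ) ^ (-α₁) ≠ 0 := by positivity
  have hN2 : ((2 * B + 1 : ℕ) : ℝ) ^ (-α₂) ≠ 0 := by positivity
  -- the corrections
  have hδ : ∀ c : ℕ → Pat B, ∃ δ : Omega, build B c δ ∈ signSet (a α₁ α₂) L := by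
    intro c
    set v : ℝ × ℝ := ((L.1 - ∑' q, block B α₁ c q) / ((2 * B + 1 : ℕ) : ℝ) ^ (-α₁),
      (L.2 - ∑' q, block B α₂ c q) / ((2 * B + 1 : ℕ) : ℝ) ^ (-α₂)) with hv
    have hvS : v ∈ signSums (a α₁ α₂) := by rw [hS]; exact mem_univ v
    obtain ⟨δ, hδ⟩ := hvS
    have hδ' : Tendsto (fun n => ∑ k ∈ Finset.range n, sgn (δ.sign k) • a α₁ α₂ k) atTop (𝓝 v) :=
      hδ
    refine ⟨δ, ?_⟩
    have hd1 : Tendsto (fun n => ∑ j ∈ Finset.range n, sgn (δ.sign j) * f α₁ j) atTop
        (𝓝 v.1) := by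
      have := (continuous_fst.tendsto v).comp hδ'
      refine this.congr fun n => ?_
      simp only [Function.comp_apply, Prod.fst_sum]
      rfl
    have hd2 : Tendsto (fun n => ∑ j ∈ Finset.range n, sgn (δ.sign j) * f α₂ j) atTop
        (𝓝 v.2) := by
      have := (continuous_snd.tendsto v).comp hδ'
      refine this.congr fun n => ?_
      simp only [Function.comp_apply, Prod.snd_sum]
      rfl
    have t1 := build_tendsto B h1 c δ hd1
    have t2 := build_tendsto B h2 c δ hd2
    have e1 : ∑' q, block B α₁ c q + ((2 * B + 1 : ℕ) : ℝ) ^ (-α₁) * v.1 = L.1 := by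
      rw [hv]
      simp only
      rw [mul_div_cancel₀ _ hN1]
      ring
    have e2 : ∑' q, block B α₂ c q + ((2 * B + 1 : ℕ) : ℝ) ^ (-α₂) * v.2 = L.2 := by
      rw [hv]
      simp only
      rw [mul_div_cancel₀ _ hN2]
      ring
    rw [e1] at t1
    rw [e2] at t2
    have t3 := t1.prodMk_nhds t2
    change Tendsto _ _ _
    refine t3.congr fun n => ?_
    rw [Prod.ext_iff]
    constructor
    · rw [Prod.fst_sum]; rfl
    · rw [Prod.snd_sum]; rfl
  choose δ hδ using hδ
  set A : Set Omega := range fun c => build B c (δ c) with hA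
  have hAE : A ⊆ signSet (a α₁ α₂) L := by
    rintro _ ⟨c, rfl⟩
    exact hδ c
  set φ : Omega → ℝ := fun x => Real.ofDigits (digit B e x) with hφ
  have himg : Icc (0 : ℝ) 1 ⊆ φ '' A := by
    intro x hx
    obtain ⟨d, -, hd⟩ := Real.ofDigits_SurjOn hB1 hx
    refine ⟨build B (fun q => e.symm (d q)) (δ _), ⟨_, rfl⟩, ?_⟩
    rw [hφ]
    simp only
    have : digit B e (build B (fun q => e.symm (d q)) (δ fun q => e.symm (d q))) = d := by
      funext q
      rw [digit_build]
      simp
    rw [this]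
    exact hd
  have hholder : HolderOnWith ((2 : ℝ≥0) ^ ((s : ℝ) * (2 * B + 1 : ℕ))) s φ A := by
    intro x _ y _
    have hb := holder_bound B e s.2 hB x y
    rw [edist_dist, edist_dist, Real.dist_eq]
    calc ENNReal.ofReal |φ x - φ y|
        ≤ ENNReal.ofReal ((2 : ℝ) ^ ((s : ℝ) * (2 * B + 1 : ℕ)) * dist x y ^ (s : ℝ)) :=
          ENNReal.ofReal_le_ofReal hb
      _ = _ := by
          rw [ENNReal.ofReal_mul (by positivity),
            ← ENNReal.ofReal_rpow_of_nonneg dist_nonneg s.coe_nonneg]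
          congr 1
          rw [ENNReal.ofReal, ENNReal.coe_inj]
          ext
          rw [Real.coe_toNNReal _ (by positivity), NNReal.coe_rpow]
          rfl
  have h3 := hholder.dimH_image_le hs
  have h4 : (1 : ℝ≥0∞) ≤ dimH (φ '' A) := by
    calc (1 : ℝ≥0∞) = dimH (Icc (0 : ℝ) 1) := by
          rw [Real.dimH_of_nonempty_interior (by rw [interior_Icc]; exact ⟨1 / 2, by norm_num, by norm_num⟩)]
          simp
      _ ≤ dimH (φ '' A) := dimH_mono himg
  have h5 : (s : ℝ≥0∞) ≤ dimH A := by
    have h6 := h4.trans h3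
    rw [ENNReal.le_div_iff_mul_le (Or.inl (by exact_mod_cast hs.ne')) (Or.inl (by simp))] at h6
    simpa using h6
  exact h5.trans (dimH_mono hAE)

/-- Block lengths with enough balanced patterns. -/
lemma exists_B {s : ℝ} (hs : s < 1) :
    ∃ B : ℕ, (2 : ℝ) ^ (s * (2 * B + 1 : ℕ)) ≤ B.centralBinom ∧ 1 < B.centralBinom := by
  have hr : 1 < (2 : ℝ) ^ (2 * (1 - s)) := Real.one_lt_rpow (by norm_num) (by linarith)
  have h1 := tendsto_pow_const_div_const_pow_of_one_lt 1 hr
  have hp2 : 0 < 2 * (2 : ℝ) ^ s := by positivity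
  obtain ⟨B0, hB0⟩ := eventually_atTop.mp
    (h1.eventually_le_const (show (0 : ℝ) < 1 / (2 * (2 : ℝ) ^ s) by positivity))
  set B := max B0 1 with hBdef
  have hB1 : 1 ≤ B := le_max_right _ _
  have hBr : (0 : ℝ) < B := by exact_mod_cast hB1
  have h2 := hB0 B (le_max_left _ _)
  refine ⟨B, ?_, ?_⟩
  · have h3 : ((4 : ℝ)) ^ B ≤ 2 * B * B.centralBinom := by
      exact_mod_cast Nat.four_pow_le_two_mul_self_mul_centralBinom B hB1
    have h2' : 2 * (2 : ℝ) ^ s * B ≤ ((2 : ℝ) ^ (2 * (1 - s))) ^ B := by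
      rw [pow_one, div_le_div_iff₀ (by positivity) hp2] at h2
      linarith
    have h4 : (4 : ℝ) ^ B = (2 : ℝ) ^ (s * (2 * B)) * ((2 : ℝ) ^ (2 * (1 - s))) ^ B := by
      rw [← Real.rpow_natCast ((2 : ℝ) ^ (2 * (1 - s))), ← Real.rpow_mul (by norm_num),
        ← Real.rpow_add (by norm_num)]
      have : s * (2 * (B : ℝ)) + 2 * (1 - s) * B = 2 * B := by ring
      rw [this, Real.rpow_mul (by norm_num), Real.rpow_natCast]
      norm_num
    have h5 : (2 : ℝ) ^ (s * (2 * B + 1 : ℕ)) = (2 : ℝ) ^ (s * (2 * B)) * (2 : ℝ) ^ s := by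
      rw [← Real.rpow_add (by norm_num)]
      congr 1
      push_cast
      ring
    rw [h5]
    have h6 : 0 < (2 : ℝ) ^ (s * (2 * (B : ℝ))) := by positivity
    have h7 : (2 : ℝ) ^ (s * (2 * (B : ℝ))) * (2 * (2 : ℝ) ^ s * B) ≤
        2 * B * B.centralBinom := by
      calc _ ≤ (2 : ℝ) ^ (s * (2 * (B : ℝ))) * ((2 : ℝ) ^ (2 * (1 - s))) ^ B := by gcongr
        _ = (4 : ℝ) ^ B := h4.symm
        _ ≤ _ := h3
    have h8 : 2 * (B : ℝ) * ((2 : ℝ) ^ (s * (2 * (B : ℝ))) * (2 : ℝ) ^ s) ≤
        2 * B * B.centralBinom := by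
      calc _ = (2 : ℝ) ^ (s * (2 * (B : ℝ))) * (2 * (2 : ℝ) ^ s * B) := by ring
        _ ≤ _ := h7
    exact le_of_mul_le_mul_left h8 (by positivity)
  · have := Nat.two_dvd_centralBinom_of_one_le hB1
    have h9 := Nat.centralBinom_pos B
    obtain ⟨k, hk⟩ := this
    omega

/-- **If `S(a_n) = ℝ²` for `a_n = (n^(-α₁), n^(-α₂))`, then `dim E(L) = 1` for every `L ∈ ℝ²`.** -/
theorem result (α₁ α₂ : ℝ) (h1 : 0 < α₁) (h2 : 0 < α₂)
    (hS : signSums (a α₁ α₂) = univ) (L : ℝ × ℝ) : dimH (signSet (a α₁ α₂) L) = 1 := by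
  apply le_antisymm
  · exact (dimH_mono (subset_univ _)).trans dimH_univ_le
  · apply le_of_forall_lt
    intro c hc
    obtain ⟨s, hs1, hs2⟩ := ENNReal.lt_iff_exists_nnreal_btwn.mp hc
    have hs : (s : ℝ) < 1 := by exact_mod_cast hs2
    have hs0 : 0 < s := by
      have : (0 : ℝ≥0∞) < s := lt_of_le_of_lt bot_le hs1
      exact_mod_cast this
    obtain ⟨B, hB, hB1⟩ := exists_B hs
    exact lt_of_lt_of_le hs1 (dim_ge h1 h2 hS L B hs0 hB hB1)

end Pool.Agent.Results.MP_035d7c_an.SignSets
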